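import Pool.Agent.Lib.MP_bae66e_nt.LL.K.KDefs

/-!
# K08: moments of `1 / ρ`
-/

set_option autoImplicit false

open Finset Nat ArithmeticFunction
open scoped ArithmeticFunction.omega ArithmeticFunction.Omega

namespace Pool.Agent.Lib.MP_bae66e_nt.LL

/-- For `0 ≤ t ≤ 1/2`: `(1 - t)^{-B} ≤ 1 + B 2^{B+1} t`.

PROOF. `(1-t)^{-B} - 1 ≤ B t (1-t)^{-B-1}` (mean value theorem, or Bernoulli
`(1-t)^B ≥ 1 - B t` times `(1-t)^{-B}`: `(1-t)^{-B} ≤ 1 + B t (1-t)^{-B} ≤ 1 + B t 2^B`). -/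
lemma inv_pow_le (B : ℕ) (t : ℝ) (ht0 : 0 ≤ t) (ht : t ≤ 1 / 2) :
    (1 / (1 - t)) ^ B ≤ 1 + B * 2 ^ B * t := by
  have h0 : 0 < 1 - t := by linarith
  have h1 : 1 / (1 - t) ≤ 2 := by
    rw [div_le_iff₀ h0]
    linarith
  have h2 : (1 / (1 - t)) ^ B ≤ 2 ^ B := pow_le_pow_left₀ (by positivity) h1 B
  have h3 : 1 - B * t ≤ (1 - t) ^ B := by
    have h := one_add_mul_le_pow (show (-2 : ℝ) ≤ -t by linarith) B
    have e1 : (1 : ℝ) + -t = 1 - t := by ring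
    rw [e1] at h
    linarith
  have h4 : (1 / (1 - t)) ^ B * (1 - t) ^ B = 1 := by
    rw [← mul_pow, one_div, inv_mul_cancel₀ h0.ne', one_pow]
  have hy : 0 ≤ (1 / (1 - t)) ^ B := by positivity
  have h5 : (1 / (1 - t)) ^ B * (1 - B * t) ≤ 1 := by
    exact (mul_le_mul_of_nonneg_left h3 hy).trans (le_of_eq h4)
  have hBt : 0 ≤ (B : ℝ) * t := by positivity
  have h6 : (B : ℝ) * t * (1 / (1 - t)) ^ B ≤ B * t * 2 ^ B := mul_le_mul_of_nonneg_left h2 hBt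
  linarith

private lemma K08_prod_le (B n : ℕ) :
    (1 / rho n) ^ B ≤ ∏ p ∈ n.primeFactors, (1 + ((B : ℝ) * 2 ^ B) / (p : ℝ)) := by
  unfold rho
  rw [one_div, ← Finset.prod_inv_distrib, ← Finset.prod_pow]
  apply Finset.prod_le_prod
  · intro p hp
    have hp2 : (2 : ℝ) ≤ p := by exact_mod_cast (Nat.prime_of_mem_primeFactors hp).two_le
    have h1 : 1 / (p : ℝ) ≤ 1 / 2 := one_div_le_one_div_of_le (by norm_num) hp2
    have h2 : 0 < 1 - 1 / (p : ℝ) := by linarith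
    positivity
  · intro p hp
    have hp2 : (2 : ℝ) ≤ p := by exact_mod_cast (Nat.prime_of_mem_primeFactors hp).two_le
    have h := inv_pow_le B (1 / (p : ℝ)) (by positivity)
      (one_div_le_one_div_of_le (by norm_num) hp2)
    rw [one_div] at h
    refine h.trans (le_of_eq ?_)
    ring

/-- All moments of `1 / ρ(n) = n / φ(n)`: `∑_{n ≤ N} ρ(n)^{-B} ≤ C_B N`.

PROOF. `ρ(n)^{-B} ≤ ∏_{p ∣ n} (1 + B 2^B / p)` by `inv_pow_le`, then `sum_weight_prod_le` and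
`prod_prms_le` of `Rho.lean`, exactly as in `sum_inv_rho_pow_four_le` there. `C_B = exp(B 2^B)`. -/
theorem sum_inv_rho_pow_le (B : ℕ) : ∃ C : ℝ, 1 ≤ C ∧ ∀ N : ℕ,
    ∑ n ∈ Finset.Icc 1 N, (1 / rho n) ^ B ≤ C * N := by
  have hB0 : (0 : ℝ) ≤ (B : ℝ) * 2 ^ B := by positivity
  refine ⟨Real.exp ((B : ℝ) * 2 ^ B), Real.one_le_exp hB0, ?_⟩
  intro N
  have h1 := sum_weight_prod_le N (fun _ => 1) N (fun p => ((B : ℝ) * 2 ^ B) / (p : ℝ))
    (fun p => by positivity) (by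
      intro D hD
      rw [Finset.sum_const, nsmul_eq_mul, mul_one]
      have h2 : #({n ∈ Finset.Icc 1 N | D ∣ n} : Finset ℕ) = N / D := by
        have := Nat.Ioc_filter_dvd_card_eq_div N D
        rw [← this]
        congr 1
      rw [h2]
      exact Nat.cast_div_le)
  simp only [one_mul] at h1
  calc ∑ n ∈ Finset.Icc 1 N, (1 / rho n) ^ B
      ≤ ∑ n ∈ Finset.Icc 1 N, ∏ p ∈ n.primeFactors, (1 + ((B : ℝ) * 2 ^ B) / (p : ℝ)) :=
        Finset.sum_le_sum (fun n _ => K08_prod_le B n)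
    _ ≤ N * ∏ p ∈ prms N, (1 + (((B : ℝ) * 2 ^ B) / (p : ℝ)) / p) := h1
    _ ≤ N * Real.exp ((B : ℝ) * 2 ^ B) :=
        mul_le_mul_of_nonneg_left (prod_prms_le N _ hB0) (Nat.cast_nonneg N)
    _ = Real.exp ((B : ℝ) * 2 ^ B) * N := mul_comm _ _

/-- The same over an interval of integers centred anywhere: for every integer `a` and `N ≥ 1`,
`∑_{d ∈ [-N, N]} ρ(|d - a|)^{-B} ≤ C_B N` if `|a| ≤ N` (note `ρ(0) = 1`).

PROOF. `|d - a| ≤ 2 N`, every value `≥ 1` is taken at most twice, the value `0` once. So the sum is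
`≤ 1 + 2 C (2 N)`. -/
theorem sum_inv_rho_int_le (B : ℕ) : ∃ C : ℝ, 1 ≤ C ∧ ∀ N : ℕ, 1 ≤ N → ∀ a : ℤ, |a| ≤ N →
    ∑ d ∈ Finset.Icc (-(N : ℤ)) (N : ℤ), (1 / rho (d - a).natAbs) ^ B ≤ C * N := by
  obtain ⟨C, hC1, hC⟩ := sum_inv_rho_pow_le B
  refine ⟨2 + 4 * C, by linarith, ?_⟩
  intro N hN a ha
  have hNR : (1 : ℝ) ≤ N := by exact_mod_cast hN
  rw [abs_le] at ha
  have hmaps : ∀ d ∈ Finset.Icc (-(N : ℤ)) (N : ℤ),
      (d - a).natAbs ∈ Finset.range (2 * N + 1) := by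
    intro d hd
    rw [Finset.mem_Icc] at hd
    rw [Finset.mem_range]
    omega
  rw [← Finset.sum_fiberwise_of_maps_to hmaps]
  have hfib : ∀ n ∈ Finset.range (2 * N + 1),
      ∑ d ∈ Finset.Icc (-(N : ℤ)) (N : ℤ) with (d - a).natAbs = n,
        (1 / rho (d - a).natAbs) ^ B ≤ 2 * (1 / rho n) ^ B := by
    intro n _
    have h1 : ∑ d ∈ Finset.Icc (-(N : ℤ)) (N : ℤ) with (d - a).natAbs = n,
        (1 / rho (d - a).natAbs) ^ B =
        ∑ _d ∈ Finset.Icc (-(N : ℤ)) (N : ℤ) with (_d - a).natAbs = n, (1 / rho n) ^ B := by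
      apply Finset.sum_congr rfl
      intro d hd
      rw [Finset.mem_filter] at hd
      rw [hd.2]
    rw [h1, Finset.sum_const, nsmul_eq_mul]
    apply mul_le_mul_of_nonneg_right
    · have h2 : #({d ∈ Finset.Icc (-(N : ℤ)) (N : ℤ) | (d - a).natAbs = n} : Finset ℤ) ≤
          #({a + n, a - n} : Finset ℤ) := by
        apply Finset.card_le_card
        intro d hd
        rw [Finset.mem_filter] at hd
        rw [Finset.mem_insert, Finset.mem_singleton]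
        omega
      have h3 := h2.trans Finset.card_le_two
      exact_mod_cast h3
    · exact pow_nonneg (one_div_nonneg.mpr (rho_pos n).le) B
  refine (Finset.sum_le_sum hfib).trans ?_
  rw [← Finset.mul_sum]
  have h4 : ∑ n ∈ Finset.range (2 * N + 1), (1 / rho n) ^ B =
      1 + ∑ n ∈ Finset.Icc 1 (2 * N), (1 / rho n) ^ B := by
    have h5 : Finset.range (2 * N + 1) = insert 0 (Finset.Icc 1 (2 * N)) := by
      ext n
      rw [Finset.mem_range, Finset.mem_insert, Finset.mem_Icc]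
      omega
    rw [h5, Finset.sum_insert (by simp)]
    congr 1
    unfold rho
    simp
  rw [h4]
  have h6 := hC (2 * N)
  push_cast at h6
  nlinarith

end Pool.Agent.Lib.MP_bae66e_nt.LL
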