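import Pool.Agent.Lib.MP_bae66e_nt.Energy

/-!
# Module K: definitions for the Selberg sieve in dimension `k + 1`
-/

set_option autoImplicit false

open Finset Nat ArithmeticFunction
open scoped ArithmeticFunction.omega ArithmeticFunction.Omega

namespace Pool.Agent.Lib.MP_bae66e_nt.LL

/-- The product `n (n + H_1) ⋯ (n + H_k)`. -/
def kForm {k : ℕ} (H : Fin k → ℕ) (n : ℕ) : ℕ := n * ∏ i, (n + H i)

/-- `(k + 1)!` times the product of the differences of `0, H_1, …, H_k`. -/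
def kMod {k : ℕ} (H : Fin k → ℕ) : ℕ :=
  (k + 1)! * ((∏ i, H i) * ∏ i, ∏ l ∈ Finset.Ioi i, ((H i : ℤ) - (H l : ℤ)).natAbs)

/-- The number of roots of `F` modulo `d`. -/
def rootCount (F : ℕ → ℕ) (d : ℕ) : ℕ := #{c ∈ Finset.range d | d ∣ F c}

/-- `d ↦ j ^ ω(d) / d` as an arithmetic function. -/
noncomputable def kNu (j : ℕ) : ArithmeticFunction ℝ :=
  ⟨fun d => ((j : ℝ) ^ (ω d)) / d, by simp⟩

lemma kNu_apply (j d : ℕ) : kNu j d = ((j : ℝ) ^ (ω d)) / d := rfl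

end Pool.Agent.Lib.MP_bae66e_nt.LL
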