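import Pool.Agent.Lib.MP_bae66e_nt.LL.K.K06

/-!
# K07: the final form of the Selberg bound
-/

set_option autoImplicit false

open Finset Nat ArithmeticFunction
open scoped ArithmeticFunction.omega ArithmeticFunction.Omega

namespace Pool.Agent.Lib.MP_bae66e_nt.LL

private lemma K07_rho_one : rho 1 = 1 := by
  unfold rho
  simp

private lemma K07_prod {ι : Type*} (s : Finset ι) (f : ι → ℕ) (hf : ∀ i ∈ s, f i ≠ 0) :
    ∏ i ∈ s, rho (f i) ≤ rho (∏ i ∈ s, f i) := by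
  classical
  induction s using Finset.induction_on with
  | empty =>
    rw [Finset.prod_empty, Finset.prod_empty, K07_rho_one]
  | insert a s ha ih =>
    rw [Finset.prod_insert ha, Finset.prod_insert ha]
    have h1 : ∏ i ∈ s, f i ≠ 0 :=
      Finset.prod_ne_zero_iff.mpr fun i hi => hf i (Finset.mem_insert_of_mem hi)
    refine le_trans ?_ (rho_mul_ge (f a) (∏ i ∈ s, f i) (hf a (Finset.mem_insert_self a s)) h1)
    exact mul_le_mul_of_nonneg_left (ih fun i hi => hf i (Finset.mem_insert_of_mem hi))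
      (rho_pos _).le

/-- `ρ(kMod H) ≥ ρ((k+1)!) ∏ ρ(H_i) ∏_{i<l} ρ(|H_i - H_l|)`, by `rho_mul_ge` (all factors are
nonzero). -/
lemma rho_kMod_ge {k : ℕ} (H : Fin k → ℕ) (h1 : ∀ i, 1 ≤ H i) (hinj : Function.Injective H) :
    rho ((k + 1)!) * ((∏ i, rho (H i)) *
      ∏ i, ∏ l ∈ Finset.Ioi i, rho (((H i : ℤ) - (H l : ℤ)).natAbs)) ≤ rho (kMod H) := by
  have hH : ∀ i ∈ (Finset.univ : Finset (Fin k)), H i ≠ 0 := fun i _ => by
    have := h1 i
    omega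
  have hD : ∀ i ∈ (Finset.univ : Finset (Fin k)), ∀ l ∈ Finset.Ioi i,
      ((H i : ℤ) - (H l : ℤ)).natAbs ≠ 0 := by
    intro i _ l hl h0
    rw [Int.natAbs_eq_zero, sub_eq_zero] at h0
    have h2 : H i = H l := by exact_mod_cast h0
    have h3 := hinj h2
    rw [Finset.mem_Ioi, h3] at hl
    exact lt_irrefl _ hl
  have hD' : ∀ i ∈ (Finset.univ : Finset (Fin k)),
      ∏ l ∈ Finset.Ioi i, ((H i : ℤ) - (H l : ℤ)).natAbs ≠ 0 := fun i hi =>
    Finset.prod_ne_zero_iff.mpr (hD i hi)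
  have e1 : ∏ i, rho (H i) ≤ rho (∏ i, H i) := K07_prod _ _ hH
  have e2 : ∏ i, ∏ l ∈ Finset.Ioi i, rho (((H i : ℤ) - (H l : ℤ)).natAbs) ≤
      rho (∏ i, ∏ l ∈ Finset.Ioi i, ((H i : ℤ) - (H l : ℤ)).natAbs) := by
    refine le_trans ?_ (K07_prod _ _ hD')
    apply Finset.prod_le_prod
    · intro i _
      exact Finset.prod_nonneg fun l _ => (rho_pos _).le
    · intro i hi
      exact K07_prod _ _ (hD i hi)
  have hP1 : ∏ i, H i ≠ 0 := Finset.prod_ne_zero_iff.mpr hH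
  have hP2 : ∏ i, ∏ l ∈ Finset.Ioi i, ((H i : ℤ) - (H l : ℤ)).natAbs ≠ 0 :=
    Finset.prod_ne_zero_iff.mpr hD'
  unfold kMod
  refine le_trans ?_ (rho_mul_ge _ _ (Nat.factorial_ne_zero _) (Nat.mul_ne_zero hP1 hP2))
  apply mul_le_mul_of_nonneg_left _ (rho_pos _).le
  refine le_trans ?_ (rho_mul_ge _ _ hP1 hP2)
  exact mul_le_mul e1 e2 (Finset.prod_nonneg fun i _ => Finset.prod_nonneg fun l _ =>
    (rho_pos _).le) (rho_pos _).le

/-- The Selberg bound for prime tuples: there is `C = C(k)` with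
`#{n ≤ X : n, n + H_i prime} ≤ C (∏ ρ(H_i) ∏_{i<l} ρ(|H_i - H_l|))^{-(k+1)} X / (log X)^{k+1}`
for all `X ≥ 2` and all distinct `H_i ≥ 1`.

PROOF. `card_prime_tuple_le` with `T = ⌊X^{1/(8 (k+1))}⌋₊ ≥ 1`: `log(T + 1) ≥ log X / (8 (k+1))`,
`T^{4(k+1)} ≤ X^{1/2} ≤ C X / (log X)^{k+1}`, and `rho_kMod_ge`; the product of the `ρ`'s is `≤ 1`
(`rho_le_one`), so the error terms are also bounded by the right-hand side. Compare
`card_prime_pair_bound` in `Rho.lean`. -/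
theorem selberg_tuple (k : ℕ) : ∃ C : ℝ, 0 < C ∧ ∀ (H : Fin k → ℕ), (∀ i, 1 ≤ H i) →
    Function.Injective H → ∀ X : ℕ, 2 ≤ X →
    ((#{n ∈ Finset.Ioc 0 X | n.Prime ∧ ∀ i, (n + H i).Prime} : ℕ) : ℝ)
      ≤ C * (1 / ((∏ i, rho (H i)) *
        ∏ i, ∏ l ∈ Finset.Ioi i, rho (((H i : ℤ) - (H l : ℤ)).natAbs))) ^ (k + 1)
        * (X / (Real.log X) ^ (k + 1)) := by
  have hR := rho_pos ((k + 1)!)
  set R : ℝ := rho ((k + 1)!) with hRdef
  refine ⟨(8 * ((k : ℝ) + 1) / R) ^ (k + 1) + 2 * (2 * ((k : ℝ) + 1)) ^ (k + 1), by positivity, ?_⟩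
  intro H h1 hinj X hX
  set R0 : ℝ := (∏ i, rho (H i)) *
        ∏ i, ∏ l ∈ Finset.Ioi i, rho (((H i : ℤ) - (H l : ℤ)).natAbs) with hR0
  have hR0pos : 0 < R0 := mul_pos (Finset.prod_pos fun i _ => rho_pos _)
    (Finset.prod_pos fun i _ => Finset.prod_pos fun l _ => rho_pos _)
  have hR0le : R0 ≤ 1 := by
    have a1 : ∏ i, rho (H i) ≤ 1 :=
      Finset.prod_le_one (fun i _ => (rho_pos _).le) fun i _ => rho_le_one _
    have a2 : ∏ i, ∏ l ∈ Finset.Ioi i, rho (((H i : ℤ) - (H l : ℤ)).natAbs) ≤ 1 :=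
      Finset.prod_le_one (fun i _ => Finset.prod_nonneg fun l _ => (rho_pos _).le) fun i _ =>
        Finset.prod_le_one (fun l _ => (rho_pos _).le) fun l _ => rho_le_one _
    calc R0 ≤ 1 * 1 := mul_le_mul a1 a2 (Finset.prod_nonneg fun i _ =>
          Finset.prod_nonneg fun l _ => (rho_pos _).le) (by norm_num)
      _ = 1 := one_mul 1
  set j : ℝ := (k : ℝ) + 1 with hj
  have hj1 : 1 ≤ j := by
    have : (0 : ℝ) ≤ k := Nat.cast_nonneg k
    linarith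
  have hj0 : 0 < j := by linarith
  set T : ℕ := ⌊(X : ℝ) ^ (1 / (8 * j))⌋₊ with hT
  have hx0 : (0 : ℝ) ≤ X := Nat.cast_nonneg X
  have hx1 : (1 : ℝ) < X := by exact_mod_cast (by omega : 1 < X)
  have hxpos : (0 : ℝ) < X := by linarith
  have hxp : (1 : ℝ) ≤ (X : ℝ) ^ (1 / (8 * j)) := Real.one_le_rpow hx1.le (by positivity)
  have hT1 : 1 ≤ T := by
    rw [hT]
    exact Nat.one_le_floor_iff _ |>.mpr hxp
  have hmain0 := card_prime_tuple_le H h1 hinj X T hT1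
  have hTle : (T : ℝ) ≤ (X : ℝ) ^ (1 / (8 * j)) := Nat.floor_le (by positivity)
  have hTlt : (X : ℝ) ^ (1 / (8 * j)) < T + 1 := Nat.lt_floor_add_one _
  have hlogx : 0 < Real.log X := Real.log_pos hx1
  have hlogT : Real.log X / (8 * j) ≤ Real.log (T + 1) := by
    have h2 : Real.log ((X : ℝ) ^ (1 / (8 * j))) ≤ Real.log (T + 1) :=
      Real.log_le_log (by positivity) hTlt.le
    rw [Real.log_rpow hxpos] at h2
    calc Real.log X / (8 * j) = 1 / (8 * j) * Real.log X := by ring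
      _ ≤ _ := h2
  have hrho : R * R0 ≤ rho (kMod H) := rho_kMod_ge H h1 hinj
  have hTR : (1 : ℝ) ≤ T := by exact_mod_cast hT1
  have hT4 : (T : ℝ) ^ (4 * (k + 1)) ≤ (X : ℝ) ^ ((1 : ℝ) / 2) := by
    calc (T : ℝ) ^ (4 * (k + 1)) ≤ ((X : ℝ) ^ (1 / (8 * j))) ^ (4 * (k + 1)) :=
          pow_le_pow_left₀ (Nat.cast_nonneg T) hTle _
      _ = (X : ℝ) ^ ((1 : ℝ) / 2) := by
          rw [← Real.rpow_natCast, ← Real.rpow_mul hx0]
          congr 1
          push_cast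
          rw [← hj]
          field_simp
          norm_num
  have hT1' : (T : ℝ) ^ (k + 1) ≤ (X : ℝ) ^ ((1 : ℝ) / 2) := by
    refine le_trans ?_ hT4
    exact pow_le_pow_right₀ hTR (by omega)
  have hsq : (X : ℝ) ^ ((1 : ℝ) / 2) ≤ (2 * j) ^ (k + 1) * (X / (Real.log X) ^ (k + 1)) := by
    rw [← mul_div_assoc, le_div_iff₀ (by positivity)]
    have h2 : Real.log X ≤ 2 * j * (X : ℝ) ^ (1 / (2 * j)) := by
      have h3 := Real.log_le_sub_one_of_pos (x := (X : ℝ) ^ (1 / (2 * j))) (by positivity)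
      rw [Real.log_rpow hxpos] at h3
      have h4 : 1 / (2 * j) * Real.log X ≤ (X : ℝ) ^ (1 / (2 * j)) := by linarith
      calc Real.log X = 2 * j * (1 / (2 * j) * Real.log X) := by field_simp
        _ ≤ 2 * j * (X : ℝ) ^ (1 / (2 * j)) := mul_le_mul_of_nonneg_left h4 (by positivity)
    have h4 : (Real.log X) ^ (k + 1) ≤ (2 * j * (X : ℝ) ^ (1 / (2 * j))) ^ (k + 1) :=
      pow_le_pow_left₀ hlogx.le h2 _
    have h5 : (2 * j * (X : ℝ) ^ (1 / (2 * j))) ^ (k + 1) =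
        (2 * j) ^ (k + 1) * (X : ℝ) ^ ((1 : ℝ) / 2) := by
      rw [mul_pow, ← Real.rpow_natCast ((X : ℝ) ^ (1 / (2 * j))), ← Real.rpow_mul hx0]
      congr 2
      push_cast
      rw [← hj]
      field_simp
    have h6 : (X : ℝ) ^ ((1 : ℝ) / 2) * (X : ℝ) ^ ((1 : ℝ) / 2) = X := by
      rw [← Real.rpow_add hxpos]
      norm_num
    calc (X : ℝ) ^ ((1 : ℝ) / 2) * (Real.log X) ^ (k + 1)
        ≤ (X : ℝ) ^ ((1 : ℝ) / 2) * ((2 * j) ^ (k + 1) * (X : ℝ) ^ ((1 : ℝ) / 2)) := by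
          rw [← h5]
          exact mul_le_mul_of_nonneg_left h4 (by positivity)
      _ = (2 * j) ^ (k + 1) * ((X : ℝ) ^ ((1 : ℝ) / 2) * (X : ℝ) ^ ((1 : ℝ) / 2)) := by ring
      _ = (2 * j) ^ (k + 1) * X := by rw [h6]
  have hfirst : (X : ℝ) / (rho (kMod H) * Real.log (T + 1)) ^ (k + 1)
      ≤ (8 * j / R) ^ (k + 1) * (1 / R0) ^ (k + 1) * (X / (Real.log X) ^ (k + 1)) := by
    have h2 : (R * R0 * (Real.log X / (8 * j))) ^ (k + 1)
        ≤ (rho (kMod H) * Real.log (T + 1)) ^ (k + 1) := by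
      apply pow_le_pow_left₀ (by positivity)
      exact mul_le_mul hrho hlogT (by positivity) (rho_pos _).le
    calc (X : ℝ) / (rho (kMod H) * Real.log (T + 1)) ^ (k + 1)
        ≤ X / (R * R0 * (Real.log X / (8 * j))) ^ (k + 1) :=
          div_le_div_of_nonneg_left hx0 (by positivity) h2
      _ = (8 * j / R) ^ (k + 1) * (1 / R0) ^ (k + 1) * (X / (Real.log X) ^ (k + 1)) := by
          rw [div_pow, div_pow, mul_pow, mul_pow, div_pow, one_pow]
          field_simp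
  set Y : ℝ := (X : ℝ) / (Real.log X) ^ (k + 1) with hY
  have hY0 : 0 ≤ Y := by positivity
  have hinv : 1 ≤ (1 / R0) ^ (k + 1) := by
    apply one_le_pow₀
    rw [le_div_iff₀ hR0pos, one_mul]
    exact hR0le
  have herr : (2 * j) ^ (k + 1) * Y ≤ (2 * j) ^ (k + 1) * ((1 / R0) ^ (k + 1) * Y) := by
    apply mul_le_mul_of_nonneg_left _ (by positivity)
    exact le_mul_of_one_le_left hY0 hinv
  calc ((#{n ∈ Finset.Ioc 0 X | n.Prime ∧ ∀ i, (n + H i).Prime} : ℕ) : ℝ)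
      ≤ X / (rho (kMod H) * Real.log (T + 1)) ^ (k + 1) + (T : ℝ) ^ (4 * (k + 1))
        + (T : ℝ) ^ (k + 1) := hmain0
    _ ≤ (8 * j / R) ^ (k + 1) * (1 / R0) ^ (k + 1) * Y +
        (2 * j) ^ (k + 1) * ((1 / R0) ^ (k + 1) * Y) +
        (2 * j) ^ (k + 1) * ((1 / R0) ^ (k + 1) * Y) := by linarith
    _ = _ := by ring

end Pool.Agent.Lib.MP_bae66e_nt.LL
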