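import Pool.Agent.Lib.MP_bae66e_nt.LL.K.KDefs

/-!
# K01: elementary facts on `kForm`, `kMod`, `kNu`
-/

set_option autoImplicit false

open Finset Nat ArithmeticFunction
open scoped ArithmeticFunction.omega ArithmeticFunction.Omega

namespace Pool.Agent.Lib.MP_bae66e_nt.LL

/-- `a < b` gives `a ∏ (a + H_i) ≤ a ∏ (b + H_i) < b ∏ (b + H_i)`. -/
lemma kForm_strictMono {k : ℕ} (H : Fin k → ℕ) : StrictMono (kForm H) := by
  intro a b hab
  unfold kForm
  have h1 : ∏ i, (a + H i) ≤ ∏ i, (b + H i) :=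
    Finset.prod_le_prod' fun i _ => by omega
  have h2 : 0 < ∏ i, (b + H i) := Finset.prod_pos fun i _ => by omega
  calc a * ∏ i, (a + H i) ≤ a * ∏ i, (b + H i) := Nat.mul_le_mul_left a h1
    _ < b * ∏ i, (b + H i) := Nat.mul_lt_mul_of_pos_right hab h2

/-- polynomials respect congruences. -/
lemma kForm_modEq {k : ℕ} (H : Fin k → ℕ) (a b d : ℕ) (h : a ≡ b [MOD d]) :
    kForm H a ≡ kForm H b [MOD d] := by
  rw [← ZMod.natCast_eq_natCast_iff] at h ⊢
  unfold kForm
  push_cast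
  rw [h]

lemma kMod_ne_zero {k : ℕ} (H : Fin k → ℕ) (h1 : ∀ i, 1 ≤ H i) (hinj : Function.Injective H) :
    kMod H ≠ 0 := by
  unfold kMod
  refine Nat.mul_ne_zero (Nat.factorial_ne_zero _) (Nat.mul_ne_zero ?_ ?_)
  · exact Finset.prod_ne_zero_iff.mpr fun i _ => by
      have := h1 i
      omega
  · refine Finset.prod_ne_zero_iff.mpr fun i _ => Finset.prod_ne_zero_iff.mpr fun l hl => ?_
    intro h0
    rw [Int.natAbs_eq_zero, sub_eq_zero] at h0
    have h2 : H i = H l := by exact_mod_cast h0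
    have h3 := hinj h2
    rw [Finset.mem_Ioi, h3] at hl
    exact lt_irrefl _ hl

lemma factorial_dvd_kMod {k : ℕ} (H : Fin k → ℕ) : (k + 1)! ∣ kMod H := by
  unfold kMod
  exact Nat.dvd_mul_right _ _

/-- A prime `p` not dividing `kMod H` is larger than `k + 1` (otherwise `p ∣ (k + 1)!`). -/
lemma lt_of_not_dvd_kMod {k : ℕ} (H : Fin k → ℕ) (p : ℕ) (hp : p.Prime) (h : ¬ p ∣ kMod H) :
    k + 1 < p := by
  by_contra hcon
  push Not at hcon
  exact h (((hp.dvd_factorial).mpr hcon).trans (factorial_dvd_kMod H))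

lemma kNu_isMultiplicative (j : ℕ) : (kNu j).IsMultiplicative := by
  refine ⟨?_, ?_⟩
  · rw [kNu_apply, cardDistinctFactors_one]
    simp
  · intro m n hmn
    rw [kNu_apply, kNu_apply, kNu_apply, cardDistinctFactors_mul hmn, pow_add]
    push_cast
    rw [_root_.div_mul_div_comm]

lemma kNu_prime (j p : ℕ) (hp : p.Prime) : kNu j p = (j : ℝ) / p := by
  rw [kNu_apply, cardDistinctFactors_apply_prime hp, pow_one]

/-- `j ^ ω(d) ≤ d` if all prime factors of `d ≠ 0` are `> j`. -/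
lemma pow_omega_le (j d : ℕ) (hd : d ≠ 0) (h : ∀ p : ℕ, p.Prime → p ∣ d → j < p) :
    j ^ (ω d) ≤ d := by
  have h1 : ω d = d.primeFactors.card := by
    rw [cardDistinctFactors_apply, ← List.card_toFinset, Nat.toFinset_factors]
  rw [h1]
  calc j ^ d.primeFactors.card = ∏ _p ∈ d.primeFactors, j := by rw [Finset.prod_const]
    _ ≤ ∏ p ∈ d.primeFactors, p := by
        apply Finset.prod_le_prod'
        intro p hp
        exact (h p (Nat.prime_of_mem_primeFactors hp) (Nat.dvd_of_mem_primeFactors hp)).le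
    _ ≤ d := Nat.le_of_dvd (Nat.pos_of_ne_zero hd) (Nat.prod_primeFactors_dvd d)

end Pool.Agent.Lib.MP_bae66e_nt.LL
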