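import Pool.Agent.Lib.MP_bae66e_nt.LL.K.K01

/-!
# K02: the number of roots of `kForm H` modulo squarefree numbers
-/

set_option autoImplicit false

open Finset Nat ArithmeticFunction
open scoped ArithmeticFunction.omega ArithmeticFunction.Omega

namespace Pool.Agent.Lib.MP_bae66e_nt.LL

private lemma K02_dvd_iff {k : ℕ} (H : Fin k → ℕ) (p : ℕ) (hp : p.Prime) (c : ℕ) :
    p ∣ kForm H c ↔ (c : ZMod p) = 0 ∨ ∃ i, (c : ZMod p) = -(H i : ZMod p) := by
  have _ := Fact.mk hp
  rw [← ZMod.natCast_eq_zero_iff]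
  unfold kForm
  push_cast
  rw [_root_.mul_eq_zero, Finset.prod_eq_zero_iff]
  constructor
  · rintro (h | ⟨i, _, h⟩)
    · exact Or.inl h
    · exact Or.inr ⟨i, eq_neg_of_add_eq_zero_left h⟩
  · rintro (h | ⟨i, h⟩)
    · exact Or.inl h
    · exact Or.inr ⟨i, Finset.mem_univ i, by rw [h, neg_add_cancel]⟩

/-- For a prime `p ∤ kMod H`, the roots of `n ∏ (n + H_i)` modulo `p` are `0, -H_1, …, -H_k`, and
these `k + 1` residues are distinct (`p` divides no `H_i` and no `H_i - H_l`, `i ≠ l`).

Hint: work in `ZMod p` (a field), `c ↦ (c : ZMod p)` is a bijection from `range p`; the root set is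
the image of the injective map `Fin.cons 0 (fun i => -(H i : ZMod p)) : Fin (k+1) → ZMod p`. -/
lemma rootCount_prime {k : ℕ} (H : Fin k → ℕ) (p : ℕ) (hp : p.Prime) (h : ¬ p ∣ kMod H) :
    rootCount (kForm H) p = k + 1 := by
  classical
  have _ := Fact.mk hp
  have _ : NeZero p := ⟨hp.ne_zero⟩
  set ψ : Fin (k + 1) → ZMod p := Fin.cons 0 (fun i => -(H i : ZMod p)) with hψ
  -- distinctness
  have hH0 : ∀ i, (H i : ZMod p) ≠ 0 := by
    intro i hi
    rw [ZMod.natCast_eq_zero_iff] at hi
    apply h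
    unfold kMod
    exact Dvd.dvd.mul_left (Dvd.dvd.mul_right (hi.trans (Finset.dvd_prod_of_mem _
      (Finset.mem_univ i))) _) _
  have hHd : ∀ i l : Fin k, i < l → (H i : ZMod p) ≠ (H l : ZMod p) := by
    intro i l hil hi
    apply h
    have h1 : p ∣ ((H i : ℤ) - (H l : ℤ)).natAbs := by
      rw [← Int.natCast_dvd, ← ZMod.intCast_zmod_eq_zero_iff_dvd]
      push_cast
      rw [hi, sub_self]
    have h2 : p ∣ ∏ i, ∏ l ∈ Finset.Ioi i, ((H i : ℤ) - (H l : ℤ)).natAbs := by
      refine (h1.trans ?_).trans (Finset.dvd_prod_of_mem _ (Finset.mem_univ i))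
      exact Finset.dvd_prod_of_mem (fun l => ((H i : ℤ) - (H l : ℤ)).natAbs)
        (Finset.mem_Ioi.mpr hil)
    unfold kMod
    exact Dvd.dvd.mul_left (Dvd.dvd.mul_left h2 _) _
  have hHinj : Function.Injective (fun i => -(H i : ZMod p)) := by
    intro i l hil
    have h3 : (H i : ZMod p) = (H l : ZMod p) := neg_injective hil
    rcases lt_trichotomy i l with h4 | h4 | h4
    · exact absurd h3 (hHd i l h4)
    · exact h4
    · exact absurd h3.symm (hHd l i h4)
  have hψinj : Function.Injective ψ := by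
    rw [hψ, Fin.cons_injective_iff]
    refine ⟨?_, hHinj⟩
    rintro ⟨i, hi⟩
    exact hH0 i (neg_eq_zero.mp hi)
  have hmem : ∀ c : ℕ, p ∣ kForm H c ↔ (c : ZMod p) ∈ Finset.univ.image ψ := by
    intro c
    rw [K02_dvd_iff H p hp c, Finset.mem_image]
    constructor
    · rintro (h1 | ⟨i, h1⟩)
      · exact ⟨0, Finset.mem_univ _, by rw [hψ, Fin.cons_zero, h1]⟩
      · exact ⟨i.succ, Finset.mem_univ _, by rw [hψ, Fin.cons_succ, h1]⟩
    · rintro ⟨j, _, hj⟩
      refine Fin.cases ?_ ?_ j hj
      · intro h1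
        rw [hψ, Fin.cons_zero] at h1
        exact Or.inl h1.symm
      · intro i h1
        rw [hψ, Fin.cons_succ] at h1
        exact Or.inr ⟨i, h1.symm⟩
  unfold rootCount
  have hcard : #{c ∈ Finset.range p | p ∣ kForm H c} = (Finset.univ.image ψ).card := by
    apply Finset.card_bij (fun (c : ℕ) _ => (c : ZMod p))
    · intro c hc
      rw [Finset.mem_filter] at hc
      exact (hmem c).mp hc.2
    · intro a ha b hb hab
      rw [Finset.mem_filter, Finset.mem_range] at ha hb
      rw [ZMod.natCast_eq_natCast_iff] at hab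
      exact Nat.ModEq.eq_of_lt_of_lt hab ha.1 hb.1
    · intro z hz
      refine ⟨z.val, ?_, ZMod.natCast_zmod_val z⟩
      rw [Finset.mem_filter, Finset.mem_range]
      refine ⟨ZMod.val_lt z, ?_⟩
      rw [hmem, ZMod.natCast_zmod_val]
      exact hz
  rw [hcard, Finset.card_image_of_injective _ hψinj, Finset.card_univ, Fintype.card_fin]

/-- Chinese remainder theorem: the number of roots is multiplicative.

Hint: the map `c ↦ (c % d, c % e)` is a bijection from the roots in `range (d * e)` onto pairs of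
roots (`Nat.chineseRemainder`); `d * e ∣ F c ↔ d ∣ F c ∧ e ∣ F c` for coprime `d`, `e`, and
`d ∣ F c ↔ d ∣ F (c % d)` by `hF`. -/
lemma rootCount_mul (F : ℕ → ℕ) (hF : ∀ a b d : ℕ, a ≡ b [MOD d] → F a ≡ F b [MOD d])
    (d e : ℕ) (hde : Nat.Coprime d e) :
    rootCount F (d * e) = rootCount F d * rootCount F e := by
  rcases Nat.eq_zero_or_pos d with hd | hd
  · subst hd
    simp [rootCount]
  rcases Nat.eq_zero_or_pos e with he | he
  · subst he
    simp [rootCount]
  have hmod : ∀ a d : ℕ, d ∣ F (a % d) ↔ d ∣ F a := by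
    intro a d
    exact (Nat.ModEq.dvd_iff (hF _ _ d (Nat.mod_modEq a d)) dvd_rfl)
  unfold rootCount
  rw [← Finset.card_product]
  apply Finset.card_bij (fun c _ => (c % d, c % e))
  · intro c hc
    rw [Finset.mem_filter] at hc
    simp only [Finset.mem_product, Finset.mem_filter, Finset.mem_range]
    exact ⟨⟨Nat.mod_lt _ hd, (hmod c d).mpr ((Nat.dvd_mul_right d e).trans hc.2)⟩,
      ⟨Nat.mod_lt _ he, (hmod c e).mpr ((Nat.dvd_mul_left e d).trans hc.2)⟩⟩
  · intro a ha b hb hab
    rw [Finset.mem_filter, Finset.mem_range] at ha hb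
    rw [Prod.mk.injEq] at hab
    have h1 : a ≡ b [MOD d * e] := (Nat.modEq_and_modEq_iff_modEq_mul hde).mp ⟨hab.1, hab.2⟩
    exact Nat.ModEq.eq_of_lt_of_lt h1 ha.1 hb.1
  · rintro ⟨x, y⟩ hxy
    simp only [Finset.mem_product, Finset.mem_filter, Finset.mem_range] at hxy
    obtain ⟨⟨hx, hxF⟩, ⟨hy, hyF⟩⟩ := hxy
    set z := Nat.chineseRemainder hde x y with hz
    have hzlt : (z : ℕ) < d * e := Nat.chineseRemainder_lt_mul hde x y hd.ne' he.ne'
    have hz1 : (z : ℕ) % d = x := by
      have := z.2.1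
      unfold Nat.ModEq at this
      rw [this, Nat.mod_eq_of_lt hx]
    have hz2 : (z : ℕ) % e = y := by
      have := z.2.2
      unfold Nat.ModEq at this
      rw [this, Nat.mod_eq_of_lt hy]
    refine ⟨z, ?_, ?_⟩
    · rw [Finset.mem_filter, Finset.mem_range]
      refine ⟨hzlt, ?_⟩
      apply Nat.Coprime.mul_dvd_of_dvd_of_dvd hde
      · rw [← hmod, hz1]
        exact hxF
      · rw [← hmod, hz2]
        exact hyF
    · rw [hz1, hz2]

/-- For squarefree `d` coprime to `kMod H` the number of roots is `(k + 1) ^ ω(d)`.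

Hint: induction on the squarefree number `d` (`Nat.recOnPrimeCoprime`, or by strong induction
splitting off `minFac d`), with `rootCount_mul` (hypothesis `kForm_modEq`) and `rootCount_prime`. -/
lemma rootCount_squarefree {k : ℕ} (H : Fin k → ℕ) (d : ℕ) (hd : Squarefree d)
    (hc : Nat.Coprime d (kMod H)) :
    rootCount (kForm H) d = (k + 1) ^ (ω d) := by
  induction d using Nat.strong_induction_on with
  | _ d ih =>
    by_cases h1 : d = 1
    · subst h1
      rw [cardDistinctFactors_one, pow_zero]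
      unfold rootCount
      simp
    have hd0 : d ≠ 0 := hd.ne_zero
    have hp : d.minFac.Prime := Nat.minFac_prime h1
    obtain ⟨e, he⟩ := Nat.minFac_dvd d
    have hpe : Nat.Coprime d.minFac e := by
      rw [he] at hd
      exact (Nat.squarefree_mul_iff.mp hd).1
    have he0 : e ≠ 0 := by
      intro h
      rw [h, mul_zero] at he
      exact hd0 he
    have hlt : e < d := by
      have h2 := hp.two_le
      have h3 : 0 < e := Nat.pos_of_ne_zero he0
      calc e < 2 * e := by omega
        _ ≤ d.minFac * e := Nat.mul_le_mul_right e h2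
        _ = d := he.symm
    have hesq : Squarefree e := by
      rw [he] at hd
      exact (Nat.squarefree_mul_iff.mp hd).2.2
    have hec : Nat.Coprime e (kMod H) := by
      rw [he] at hc
      exact Nat.Coprime.coprime_mul_left hc
    have hpc : Nat.Coprime d.minFac (kMod H) := by
      have hc' := hc
      rw [he] at hc'
      exact Nat.Coprime.coprime_mul_right hc'
    have hpn : ¬ d.minFac ∣ kMod H := (Nat.Prime.coprime_iff_not_dvd hp).mp hpc
    have h4 := rootCount_mul (kForm H) (fun a b d h => kForm_modEq H a b d h) d.minFac e hpe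
    have h5 : ω d = 1 + ω e := by
      conv_lhs => rw [he]
      rw [cardDistinctFactors_mul hpe, cardDistinctFactors_apply_prime hp]
    have h6 : rootCount (kForm H) d = rootCount (kForm H) (d.minFac * e) := by
      rw [← he]
    rw [h6, h4, rootCount_prime H d.minFac hp hpn, ih e hlt hesq hec, h5, pow_add, pow_one]

end Pool.Agent.Lib.MP_bae66e_nt.LL
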