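import Pool.Agent.Lib.MP_bae66e_nt.LL.K.K01

/-!
# K03: counting `n ≤ X` with `d ∣ F(n)`
-/

set_option autoImplicit false

open Finset Nat ArithmeticFunction
open scoped ArithmeticFunction.omega ArithmeticFunction.Omega

namespace Pool.Agent.Lib.MP_bae66e_nt.LL

/-- The number of `n ∈ (0, X]` with `d ∣ F(n)` is `rootCount F d * X / d` up to `rootCount F d`.

PROOF. `d ∣ F(n) ↔ d ∣ F(n % d)` by `hF`. So the set is the disjoint union, over the roots
`c ∈ range d`, of `{n ∈ (0, X] | n ≡ c [MOD d]}`, each of cardinality `X / d + O(1)` by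
`abs_card_modEq_sub_le` (`PairCount.lean`, namespace `Pool.Agent.Lib.MP_bae66e_nt`). -/
lemma abs_card_dvd_sub_le (F : ℕ → ℕ) (hF : ∀ a b d : ℕ, a ≡ b [MOD d] → F a ≡ F b [MOD d])
    (d X : ℕ) (hd : 0 < d) :
    |((#{n ∈ Finset.Ioc 0 X | d ∣ F n} : ℕ) : ℝ) - (rootCount F d : ℝ) * X / d|
      ≤ (rootCount F d : ℝ) := by
  have hmod : ∀ a : ℕ, d ∣ F (a % d) ↔ d ∣ F a := by
    intro a
    exact (Nat.ModEq.dvd_iff (hF _ _ d (Nat.mod_modEq a d)) dvd_rfl)
  set R : Finset ℕ := {c ∈ Finset.range d | d ∣ F c} with hR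
  have hRc : rootCount F d = R.card := rfl
  have h1 : #{n ∈ Finset.Ioc 0 X | d ∣ F n} =
      ∑ c ∈ R, #{n ∈ Finset.Ioc 0 X | n ≡ c [MOD d]} := by
    rw [Finset.card_eq_sum_card_fiberwise (f := fun n => n % d) (t := R)]
    · apply Finset.sum_congr rfl
      intro c hc
      rw [hR, Finset.mem_filter, Finset.mem_range] at hc
      congr 1
      ext n
      simp only [Finset.mem_filter]
      constructor
      · rintro ⟨⟨h1, _⟩, h3⟩
        refine ⟨h1, ?_⟩
        unfold Nat.ModEq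
        rw [h3, Nat.mod_eq_of_lt hc.1]
      · rintro ⟨h1, h2⟩
        have h3 : n % d = c := by
          unfold Nat.ModEq at h2
          rw [h2, Nat.mod_eq_of_lt hc.1]
        refine ⟨⟨h1, ?_⟩, h3⟩
        rw [← hmod, h3]
        exact hc.2
    · intro n hn
      simp only [Finset.coe_filter, Set.mem_ofPred_eq] at hn
      simp only [hR, Finset.coe_filter, Set.mem_ofPred_eq, Finset.mem_range]
      exact ⟨Nat.mod_lt _ hd, (hmod n).mpr hn.2⟩
  rw [hRc, h1]
  push_cast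
  have h2 : (R.card : ℝ) * X / d = ∑ _c ∈ R, (X : ℝ) / d := by
    rw [Finset.sum_const, nsmul_eq_mul, mul_div_assoc]
  rw [h2, ← Finset.sum_sub_distrib]
  refine (Finset.abs_sum_le_sum_abs _ _).trans ?_
  calc ∑ c ∈ R, |((#{n ∈ Finset.Ioc 0 X | n ≡ c [MOD d]} : ℕ) : ℝ) - (X : ℝ) / d|
      ≤ ∑ _c ∈ R, (1 : ℝ) :=
        Finset.sum_le_sum fun c _ => abs_card_modEq_sub_le X d c hd
    _ = (R.card : ℝ) := by simp

end Pool.Agent.Lib.MP_bae66e_nt.LL
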