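import Pool.Agent.Lib.MP_bae66e_nt.LL.K.KDefs

/-!
# K04: divisor sums
-/

set_option autoImplicit false

open Finset Nat ArithmeticFunction
open scoped ArithmeticFunction.omega ArithmeticFunction.Omega

namespace Pool.Agent.Lib.MP_bae66e_nt.LL

/-- `∑_{d ∣ n} k^{Ω(d)} ≤ (k + 1)^{Ω(n)}` for `n ≠ 0`.

PROOF. Induction on `n` by `n = p m`, `p` prime (`Nat.recOnMul` or `induction_on_primes`): the
divisors of `p m` are divisors of `m` or `p` times divisors of `m`, so the sum for `p m` is at most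
`(1 + k)` times the sum for `m`. -/
lemma sum_divisors_pow_Omega_le (k n : ℕ) (hn : n ≠ 0) :
    ∑ d ∈ n.divisors, k ^ (Ω d) ≤ (k + 1) ^ (Ω n) := by
  induction n using Nat.recOnMul with
  | zero => exact absurd rfl hn
  | one => simp
  | prime p hp =>
    rw [hp.divisors, Finset.sum_pair hp.one_lt.ne, cardFactors_one, cardFactors_apply_prime hp]
    simp [add_comm]
  | mul a b iha ihb =>
    have ha : a ≠ 0 := fun h => hn (by rw [h, zero_mul])
    have hb : b ≠ 0 := fun h => hn (by rw [h, mul_zero])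
    rw [cardFactors_mul ha hb, pow_add]
    refine le_trans ?_ (Nat.mul_le_mul (iha ha) (ihb hb))
    rw [Finset.sum_mul_sum, ← Finset.sum_product']
    calc ∑ d ∈ (a * b).divisors, k ^ (Ω d)
        ≤ ∑ d ∈ (a.divisors ×ˢ b.divisors).image (fun x => x.1 * x.2), k ^ (Ω d) := by
          apply Finset.sum_le_sum_of_subset
          intro d hd
          rw [Nat.divisors_mul, Finset.mem_mul] at hd
          obtain ⟨x, hx, y, hy, hxy⟩ := hd
          rw [Finset.mem_image]
          exact ⟨(x, y), Finset.mem_product.mpr ⟨hx, hy⟩, hxy⟩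
      _ ≤ ∑ x ∈ a.divisors ×ˢ b.divisors, k ^ (Ω (x.1 * x.2)) := by
          exact Finset.sum_image_le_of_nonneg fun _ _ => Nat.zero_le _
      _ = ∑ x ∈ a.divisors ×ˢ b.divisors, k ^ (Ω x.1) * k ^ (Ω x.2) := by
          apply Finset.sum_congr rfl
          intro x hx
          rw [Finset.mem_product, Nat.mem_divisors, Nat.mem_divisors] at hx
          have h1 : x.1 ≠ 0 := fun h => by
            rw [h] at hx
            exact ha (Nat.eq_zero_of_zero_dvd hx.1.1)
          have h2 : x.2 ≠ 0 := fun h => by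
            rw [h] at hx
            exact hb (Nat.eq_zero_of_zero_dvd hx.2.1)
          rw [cardFactors_mul h1 h2, pow_add]

/-- `(∑_{a ≤ T, (a, m) = 1} 1/a)^j ≤ ∑_{n ≤ T^j, (n, m) = 1} j^{Ω(n)} / n`.

PROOF. Induction on `j`. `j = 0`: the left side is `1`; on the right `T^0 = 1` and the term `n = 1`
is `0^0 / 1 = 1` (`Ω 1 = 0`). Step: multiply the inequality for `j` by
`∑_{a ≤ T, (a, m) = 1} 1/a`; the product is `∑_{n} (1/n) ∑_{n = a b} j^{Ω(b)}` over pairs
`a ≤ T`, `b ≤ T^j` coprime to `m`, so `n = a b ≤ T^{j+1}` is coprime to `m`, and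
`∑_{b ∣ n} j^{Ω(b)} ≤ (j + 1)^{Ω(n)}`. (Compare `sq_sum_le_sum_cFun` in `SelLower.lean`.) -/
lemma pow_sum_le (j m T : ℕ) :
    (∑ a ∈ Finset.Icc 1 T with Nat.Coprime a m, (1 : ℝ) / a) ^ j
      ≤ ∑ n ∈ Finset.Icc 1 (T ^ j) with Nat.Coprime n m, ((j : ℝ) ^ (Ω n)) / n := by
  induction j with
  | zero =>
    have h1 : (1 : ℕ) ∈ ({n ∈ Finset.Icc 1 (T ^ 0) | Nat.Coprime n m} : Finset ℕ) := by
      simp
    rw [pow_zero]
    have h2 := Finset.single_le_sum (f := fun n : ℕ => (((0 : ℕ) : ℝ) ^ (Ω n)) / n)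
      (fun n _ => by positivity) h1
    refine le_trans ?_ h2
    simp
  | succ j ih =>
    set A : Finset ℕ := {a ∈ Finset.Icc 1 T | Nat.Coprime a m} with hA
    set B : Finset ℕ := {n ∈ Finset.Icc 1 (T ^ j) | Nat.Coprime n m} with hB
    have hA0 : 0 ≤ ∑ a ∈ A, (1 : ℝ) / a := Finset.sum_nonneg fun a _ => by positivity
    rw [pow_succ]
    refine (mul_le_mul_of_nonneg_right ih hA0).trans ?_
    rw [Finset.sum_mul_sum, ← Finset.sum_product']
    have hmaps : ∀ x ∈ B ×ˢ A,
        x.1 * x.2 ∈ ({n ∈ Finset.Icc 1 (T ^ (j + 1)) | Nat.Coprime n m} : Finset ℕ) := by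
      intro x hx
      simp only [hA, hB, Finset.mem_product, Finset.mem_filter, Finset.mem_Icc] at hx ⊢
      refine ⟨⟨?_, ?_⟩, ?_⟩
      · exact Nat.mul_pos (by omega) (by omega)
      · rw [pow_succ]; exact Nat.mul_le_mul hx.1.1.2 hx.2.1.2
      · exact Nat.Coprime.mul_left hx.1.2 hx.2.2
    rw [← Finset.sum_fiberwise_of_maps_to hmaps]
    apply Finset.sum_le_sum
    intro n hn
    simp only [Finset.mem_filter, Finset.mem_Icc] at hn
    have hn0 : n ≠ 0 := by omega
    have hn0' : (0 : ℝ) < n := by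
      have : 0 < n := by omega
      exact_mod_cast this
    calc ∑ x ∈ B ×ˢ A with x.1 * x.2 = n, ((j : ℝ) ^ (Ω x.1)) / x.1 * ((1 : ℝ) / x.2)
        = ∑ x ∈ B ×ˢ A with x.1 * x.2 = n, ((j : ℝ) ^ (Ω x.1)) / n := by
          apply Finset.sum_congr rfl
          intro x hx
          simp only [Finset.mem_filter] at hx
          rw [← hx.2]
          push_cast
          rw [_root_.div_mul_div_comm, mul_one]
      _ = (∑ x ∈ B ×ˢ A with x.1 * x.2 = n, ((j : ℝ) ^ (Ω x.1))) / n := by
          rw [Finset.sum_div]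
      _ ≤ (∑ d ∈ n.divisors, ((j : ℝ) ^ (Ω d))) / n := by
          apply div_le_div_of_nonneg_right _ hn0'.le
          have hinj : Set.InjOn (fun x : ℕ × ℕ => x.1)
              (({x ∈ B ×ˢ A | x.1 * x.2 = n} : Finset (ℕ × ℕ)) : Set (ℕ × ℕ)) := by
            intro x hx y hy hxy
            simp only [Finset.coe_filter, Set.mem_ofPred_eq] at hx hy
            simp only at hxy
            have hx1 : 0 < x.1 := by
              rcases Nat.eq_zero_or_pos x.1 with h | h
              · rw [h, zero_mul] at hx; exact absurd hx.2.symm hn0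
              · exact h
            have h1 : x.1 * x.2 = x.1 * y.2 := by rw [hx.2, hxy, hy.2]
            exact Prod.ext hxy (Nat.eq_of_mul_eq_mul_left hx1 h1)
          rw [← Finset.sum_image (f := fun d : ℕ => ((j : ℝ) ^ (Ω d))) hinj]
          apply Finset.sum_le_sum_of_subset_of_nonneg
          · intro d hd
            rw [Finset.mem_image] at hd
            obtain ⟨x, hx, rfl⟩ := hd
            rw [Finset.mem_filter] at hx
            rw [Nat.mem_divisors]
            exact ⟨Dvd.intro _ hx.2, hn0⟩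
          · intro d _ _
            positivity
      _ ≤ (((j + 1 : ℕ) : ℝ) ^ (Ω n)) / n := by
          apply div_le_div_of_nonneg_right _ hn0'.le
          exact_mod_cast sum_divisors_pow_Omega_le j n hn0

end Pool.Agent.Lib.MP_bae66e_nt.LL
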