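import Pool.Agent.Lib.MP_bae66e_nt.LL.K.K01

/-!
# K05: lower bound for Selberg's sum
-/

set_option autoImplicit false

open Finset Nat ArithmeticFunction
open scoped ArithmeticFunction.omega ArithmeticFunction.Omega

namespace Pool.Agent.Lib.MP_bae66e_nt.LL

/-- The completely multiplicative function `j ^ Ω(n) / n` on the integers coprime to `j!`. -/
private noncomputable def K05_g (j : ℕ) : ℕ →* ℝ where
  toFun n := if n ≠ 0 ∧ Nat.Coprime n (j !) then (j : ℝ) ^ (Ω n) / n else 0
  map_one' := by simp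
  map_mul' m n := by
    by_cases hm : m ≠ 0 ∧ Nat.Coprime m (j !)
    · by_cases hn : n ≠ 0 ∧ Nat.Coprime n (j !)
      · have hmn : m * n ≠ 0 ∧ Nat.Coprime (m * n) (j !) :=
          ⟨mul_ne_zero hm.1 hn.1, Nat.Coprime.mul_left hm.2 hn.2⟩
        rw [if_pos hm, if_pos hn, if_pos hmn,
          ArithmeticFunction.cardFactors_mul hm.1 hn.1, pow_add]
        have hm' : (m : ℝ) ≠ 0 := by exact_mod_cast hm.1
        have hn' : (n : ℝ) ≠ 0 := by exact_mod_cast hn.1
        push_cast
        field_simp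
      · have hmn : ¬ (m * n ≠ 0 ∧ Nat.Coprime (m * n) (j !)) := by
          rintro ⟨h1, h2⟩
          exact hn ⟨fun h => h1 (by rw [h, mul_zero]), Nat.Coprime.coprime_mul_left h2⟩
        rw [if_neg hn, if_neg hmn, mul_zero]
    · have hmn : ¬ (m * n ≠ 0 ∧ Nat.Coprime (m * n) (j !)) := by
        rintro ⟨h1, h2⟩
        exact hm ⟨fun h => h1 (by rw [h, zero_mul]), Nat.Coprime.coprime_mul_right h2⟩
      rw [if_neg hm, if_neg hmn, zero_mul]

private lemma K05_g_apply (j n : ℕ) :
    K05_g j n = if n ≠ 0 ∧ Nat.Coprime n (j !) then (j : ℝ) ^ (Ω n) / n else 0 := rfl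

private lemma K05_g_nonneg (j n : ℕ) : 0 ≤ K05_g j n := by
  rw [K05_g_apply]
  split_ifs <;> positivity

private lemma K05_g_prime {j p : ℕ} (hp : p.Prime) (hj : j < p) : K05_g j p = j / p := by
  have h : p ≠ 0 ∧ Nat.Coprime p (j !) := by
    refine ⟨hp.ne_zero, (Nat.Prime.coprime_iff_not_dvd hp).2 (fun h => ?_)⟩
    have := (hp.dvd_factorial).1 h
    omega
  rw [K05_g_apply, if_pos h, ArithmeticFunction.cardFactors_apply_prime hp, pow_one]

private lemma K05_g_prime_le {j p : ℕ} (hp : p.Prime) (hj : p ≤ j) : K05_g j p = 0 := by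
  have h : ¬ (p ≠ 0 ∧ Nat.Coprime p (j !)) := by
    rintro ⟨-, h⟩
    exact (Nat.Prime.coprime_iff_not_dvd hp).1 h ((hp.dvd_factorial).2 hj)
  rw [K05_g_apply, if_neg h]

private lemma K05_norm_lt_one {j p : ℕ} (hp : p.Prime) : ‖K05_g j p‖ < 1 := by
  rw [Real.norm_of_nonneg (K05_g_nonneg j p)]
  rcases lt_or_ge j p with h | h
  · rw [K05_g_prime hp h]
    have h1 : (j : ℝ) < p := by exact_mod_cast h
    have h2 : (0 : ℝ) < p := by exact_mod_cast hp.pos
    rw [div_lt_one h2]
    exact h1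
  · rw [K05_g_prime_le hp h]
    exact zero_lt_one

private lemma K05_g_eq_kNu {j l : ℕ} (hl : Squarefree l) (hlj : ∀ p ∈ l.primeFactors, j < p) :
    K05_g j l = kNu j l := by
  have h1 : K05_g j l = ∏ p ∈ l.primeFactors, K05_g j p := by
    conv_lhs => rw [← Nat.prod_primeFactors_of_squarefree hl]
    rw [map_prod]
  have h2 : kNu j l = ∏ p ∈ l.primeFactors, kNu j p := by
    conv_lhs => rw [← Nat.prod_primeFactors_of_squarefree hl]
    exact (kNu_isMultiplicative j).map_prod_of_prime _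
      (fun p hp => Nat.prime_of_mem_primeFactors hp)
  rw [h1, h2]
  apply Finset.prod_congr rfl
  intro p hp
  have hp' := Nat.prime_of_mem_primeFactors hp
  rw [K05_g_prime hp' (hlj p hp), kNu_prime j p hp']

/-- For a given squarefree `l`, summing over a finite set of `n` of radical `l`. -/
private lemma K05_rad_le {s : BoundingSieve} {j m : ℕ} (hν : s.nu = kNu j) (hm : j ! ∣ m) {R : ℕ}
    (hP : s.prodPrimes = sProd m R) {l : ℕ} (hl : l ∣ s.prodPrimes) (F : Finset ℕ)
    (hF : ∀ n ∈ F, n ≠ 0 ∧ rad' n = l) :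
    ∑ n ∈ F, K05_g j n ≤ s.selbergTerms l := by
  have hlsq : Squarefree l := BoundingSieve.squarefree_of_dvd_prodPrimes hl
  have hlj : ∀ p ∈ l.primeFactors, j < p := by
    intro p hp
    by_contra hcon
    push Not at hcon
    have hp' := Nat.prime_of_mem_primeFactors hp
    have h1 : p ∣ sProd m R := (Nat.dvd_of_mem_primeFactors hp).trans (hP ▸ hl)
    exact ((prime_dvd_sProd_iff hp').mp h1).2 (((hp'.dvd_factorial).2 hcon).trans hm)
  obtain ⟨_, hsum⟩ := EulerProduct.summable_and_hasSum_factoredNumbers_prod_filter_prime_geometric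
    (f := K05_g j) (fun {p} hp => K05_norm_lt_one hp) l.primeFactors
  have hsum' := (hasSum_subtype_iff_indicator (f := fun n : ℕ => K05_g j n)).mp hsum
  rw [BoundingSieve.selbergTerms_apply, hν]
  have hprod : ∏ p ∈ l.primeFactors with p.Prime, (1 - K05_g j p)⁻¹
      = ∏ p ∈ l.primeFactors, (1 - kNu j p)⁻¹ := by
    rw [Finset.filter_true_of_mem (fun p hp => Nat.prime_of_mem_primeFactors hp)]
    apply Finset.prod_congr rfl
    intro p hp
    have hp' := Nat.prime_of_mem_primeFactors hp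
    rw [K05_g_prime hp' (hlj p hp), kNu_prime j p hp']
  rw [hprod] at hsum'
  have hdvd : ∀ n ∈ F, l ∣ n := fun n hn => (hF n hn).2 ▸ rad'_dvd n
  have hinj : Set.InjOn (fun n => n / l) (F : Set ℕ) := by
    intro a ha b hb hab
    simp only at hab
    have h1 := Nat.div_mul_cancel (hdvd a (by exact_mod_cast ha))
    have h2 := Nat.div_mul_cancel (hdvd b (by exact_mod_cast hb))
    rw [← h1, ← h2, hab]
  have h1 : ∑ n ∈ F, K05_g j n = K05_g j l * ∑ n ∈ F, K05_g j (n / l) := by
    rw [Finset.mul_sum]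
    apply Finset.sum_congr rfl
    intro n hn
    rw [← map_mul, Nat.mul_div_cancel' (hdvd n hn)]
  rw [h1, K05_g_eq_kNu hlsq hlj]
  have hν0 : 0 ≤ kNu j l := by rw [kNu_apply]; positivity
  apply mul_le_mul_of_nonneg_left _ hν0
  rw [← Finset.sum_image (f := fun t => K05_g j t) hinj]
  have h2 : ∑ t ∈ F.image (fun n => n / l), K05_g j t
      = ∑ t ∈ F.image (fun n => n / l),
        (Nat.factoredNumbers l.primeFactors).indicator (fun n : ℕ => K05_g j n) t := by
    apply Finset.sum_congr rfl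
    intro t ht
    rw [Set.indicator_of_mem]
    simp only [Finset.mem_image] at ht
    obtain ⟨n, hn, rfl⟩ := ht
    have hn0 := (hF n hn).1
    have hnl0 : n / l ≠ 0 := by
      intro h
      have := Nat.div_mul_cancel (hdvd n hn)
      rw [h, zero_mul] at this
      exact hn0 this.symm
    apply Nat.mem_factoredNumbers_of_primeFactors_subset hnl0
    have h3 : n.primeFactors = l.primeFactors := by
      rw [← (hF n hn).2]
      unfold rad'
      rw [Nat.primeFactors_prod_primeFactors]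
    rw [← h3]
    exact Nat.primeFactors_mono (Nat.div_dvd_of_dvd (hdvd n hn)) hn0
  rw [h2]
  apply sum_le_hasSum _ _ hsum'
  intro i _
  apply Set.indicator_nonneg
  intro x _
  exact K05_g_nonneg j x

private lemma K05_le_selS {s : BoundingSieve} {j m : ℕ} (hν : s.nu = kNu j) (hm : j ! ∣ m) {R : ℕ}
    (hP : s.prodPrimes = sProd m R) :
    ∑ n ∈ Finset.Icc 1 R with Nat.Coprime n m, K05_g j n ≤ selS s R := by
  unfold selS
  have hmaps : ∀ n ∈ ({n ∈ Finset.Icc 1 R | Nat.Coprime n m} : Finset ℕ),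
      rad' n ∈ ({l ∈ s.prodPrimes.divisors | l ≤ R} : Finset ℕ) := by
    intro n hn
    simp only [Finset.mem_filter, Finset.mem_Icc] at hn
    simp only [Finset.mem_filter, Nat.mem_divisors]
    refine ⟨⟨?_, BoundingSieve.prodPrimes_ne_zero⟩, ?_⟩
    · rw [hP]
      exact rad'_dvd_sProd (by omega) hn.1.2 hn.2
    · exact (Nat.le_of_dvd (by omega) (rad'_dvd n)).trans hn.1.2
  rw [← Finset.sum_fiberwise_of_maps_to hmaps]
  apply Finset.sum_le_sum
  intro l hl
  simp only [Finset.mem_filter, Nat.mem_divisors] at hl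
  apply K05_rad_le hν hm hP hl.1.1
  intro n hn
  simp only [Finset.mem_filter, Finset.mem_Icc] at hn
  exact ⟨by omega, hn.2⟩

/-- `∑_{n ≤ R, (n, m) = 1} j^{Ω(n)} / n ≤ selS s R` if the sieve `s` has density `j^{ω(d)}/d` and
sifts by the primes `≤ R` not dividing `m`, where `j! ∣ m` (so these primes are `> j`).

PROOF. Copy the proof of `sum_cFun_le_selS` and `sum_cFun_rad_le` in `SelLower.lean` (there `j = 2`):
replace `cFun` by the completely multiplicative function `n ↦ j^{Ω(n)} / n` if `n` is coprime to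
`j!` and `0` otherwise (value `j / p < 1` at the primes `p > j`), `tauNu` by `kNu j`. Group the `n`
by their radical `l`: `∑_{rad n = l} j^{Ω(n)}/n = ∏_{p ∣ l} (j/p) / (1 - j/p) = selbergTerms l`. -/
lemma sum_pow_Omega_le_selS (s : BoundingSieve) (j m R : ℕ) (hj : 1 ≤ j) (hν : s.nu = kNu j)
    (hm : j ! ∣ m) (hP : s.prodPrimes = sProd m R) :
    ∑ n ∈ Finset.Icc 1 R with Nat.Coprime n m, ((j : ℝ) ^ (Ω n)) / n ≤ selS s R := by
  refine le_trans (le_of_eq ?_) (K05_le_selS hν hm hP)
  apply Finset.sum_congr rfl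
  intro n hn
  simp only [Finset.mem_filter, Finset.mem_Icc] at hn
  have h : n ≠ 0 ∧ Nat.Coprime n (j !) := ⟨by omega, Nat.Coprime.coprime_dvd_right hm hn.2⟩
  rw [K05_g_apply, if_pos h]

end Pool.Agent.Lib.MP_bae66e_nt.LL
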