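import Pool.Agent.Lib.MP_bae66e_nt.LL.K.K02
import Pool.Agent.Lib.MP_bae66e_nt.LL.K.K03
import Pool.Agent.Lib.MP_bae66e_nt.LL.K.K04
import Pool.Agent.Lib.MP_bae66e_nt.LL.K.K05

/-!
# K06: the sieve bound with parameter `T`
-/

set_option autoImplicit false

open Finset Nat ArithmeticFunction
open scoped ArithmeticFunction.omega ArithmeticFunction.Omega

namespace Pool.Agent.Lib.MP_bae66e_nt.LL

/-- The sieve problem for `kForm H`. -/
private noncomputable def K06_S {k : ℕ} (H : Fin k → ℕ) (X R : ℕ) : BoundingSieve where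
  support := (Finset.Ioc 0 X).image (kForm H)
  prodPrimes := sProd (kMod H) R
  prodPrimes_squarefree := squarefree_sProd _ R
  weights := fun _ => 1
  weights_nonneg := fun _ => zero_le_one
  totalMass := X
  nu := kNu (k + 1)
  nu_mult := kNu_isMultiplicative _
  nu_pos_of_prime := by
    intro p hp _
    rw [kNu_prime _ p hp]
    have : (0 : ℝ) < p := by exact_mod_cast hp.pos
    positivity
  nu_lt_one_of_prime := by
    intro p hp hpP
    rw [kNu_prime _ p hp]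
    have h := lt_of_not_dvd_kMod H p hp ((prime_dvd_sProd_iff hp).mp hpP).2
    have h' : ((k + 1 : ℕ) : ℝ) < p := by exact_mod_cast h
    have h0 : (0 : ℝ) < p := by exact_mod_cast hp.pos
    rw [div_lt_one h0]
    exact h'

private lemma K06_multSum {k : ℕ} (H : Fin k → ℕ) (X R : ℕ) (d : ℕ) :
    (K06_S H X R).multSum d
      = ((#{n ∈ Finset.Ioc 0 X | d ∣ kForm H n} : ℕ) : ℝ) := by
  unfold BoundingSieve.multSum
  simp only [K06_S]
  rw [Finset.sum_image (by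
    intro a _ b _ hab
    exact (kForm_strictMono H).injective hab)]
  rw [← Finset.sum_filter, Finset.sum_const, nsmul_eq_mul, mul_one]

private lemma K06_siftedSum {k : ℕ} (H : Fin k → ℕ) (X R : ℕ) :
    (K06_S H X R).siftedSum
      = ((#{n ∈ Finset.Ioc 0 X | Nat.Coprime (sProd (kMod H) R) (kForm H n)} : ℕ) : ℝ) := by
  unfold BoundingSieve.siftedSum
  change ∑ d ∈ (Finset.Ioc 0 X).image (kForm H),
    (if Nat.Coprime (sProd (kMod H) R) d then (1 : ℝ) else 0) = _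
  rw [Finset.sum_image (by
    intro a _ b _ hab
    exact (kForm_strictMono H).injective hab)]
  rw [← Finset.sum_filter, Finset.sum_const, nsmul_eq_mul, mul_one]

private lemma K06_rem_le {k : ℕ} (H : Fin k → ℕ) (X R : ℕ) {d : ℕ}
    (hd : d ∣ sProd (kMod H) R) :
    |(K06_S H X R).rem d| ≤ d := by
  unfold BoundingSieve.rem
  rw [K06_multSum]
  have hsq : Squarefree d := Squarefree.squarefree_of_dvd hd (squarefree_sProd _ R)
  have hcop : Nat.Coprime d (kMod H) := Nat.Coprime.coprime_dvd_left hd (coprime_sProd _ R)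
  have hd0 : 0 < d := Nat.pos_of_ne_zero hsq.ne_zero
  have h1 := abs_card_dvd_sub_le (kForm H) (fun a b d h => kForm_modEq H a b d h) d X hd0
  rw [rootCount_squarefree H d hsq hcop] at h1
  have h2 : (k + 1) ^ (ω d) ≤ d := by
    apply pow_omega_le (k + 1) d hd0.ne'
    intro p hp hpd
    exact lt_of_not_dvd_kMod H p hp ((prime_dvd_sProd_iff hp).mp (hpd.trans hd)).2
  have h3 : (((k + 1) ^ (ω d) : ℕ) : ℝ) ≤ d := by exact_mod_cast h2
  have h4 : (K06_S H X R).nu d * (K06_S H X R).totalMass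
      = (((k + 1) ^ (ω d) : ℕ) : ℝ) * X / d := by
    change kNu (k + 1) d * (X : ℝ) = _
    rw [kNu_apply]
    push_cast
    ring
  rw [h4]
  exact h1.trans h3

/-- Sifted set, with `j = k + 1`, `m = kMod H`:
`#{n ≤ X : (n ∏ (n + H_i), P) = 1} ≤ X / (ρ(m) log(T + 1))^j + T^{4 j}`, `P` the product of the
primes `≤ T^j` not dividing `m`.

PROOF. Copy `card_sifted_pair_le` in `PairSieve.lean`. The sieve: support = image of `(0, X]` under
`kForm H` (strictly increasing, `kForm_strictMono`), weights `1`, `totalMass = X`, `nu = kNu j`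
(`kNu_isMultiplicative`, `kNu_prime`; `0 < j / p < 1` for `p ∣ P` as `p > j`,
`lt_of_not_dvd_kMod`), `prodPrimes = sProd m (T^j)`. Then `siftedSum` is the count on the left,
`multSum d = #{n ≤ X : d ∣ kForm H n}`, and `|rem d| ≤ j^{ω(d)} ≤ d` for `d ∣ P`
(`abs_card_dvd_sub_le`, `rootCount_squarefree`, `pow_omega_le`). `selberg_bound` with `R = T^j`, and
`selS s (T^j) ≥ ∑_{n ≤ T^j, (n, m) = 1} j^{Ω(n)} / n ≥ (∑_{a ≤ T, (a,m) = 1} 1/a)^j
≥ (ρ(m) log(T + 1))^j` (`sum_pow_Omega_le_selS`, `pow_sum_le`, `rho_mul_log_le`). The remainder is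
at most `∑_{d1, d2 ≤ T^j} lcm(d1, d2) ≤ T^{2j} T^{2j}`. -/
theorem card_sifted_kForm_le {k : ℕ} (H : Fin k → ℕ) (h1 : ∀ i, 1 ≤ H i)
    (hinj : Function.Injective H) (X T : ℕ) (hT : 1 ≤ T) :
    ((#{n ∈ Finset.Ioc 0 X | Nat.Coprime (sProd (kMod H) (T ^ (k + 1))) (kForm H n)} : ℕ) : ℝ)
      ≤ X / (rho (kMod H) * Real.log (T + 1)) ^ (k + 1) + (T : ℝ) ^ (4 * (k + 1)) := by
  set s := K06_S H X (T ^ (k + 1)) with hs
  have hR : 1 ≤ T ^ (k + 1) := Nat.one_le_pow _ _ hT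
  have g1 := selberg_bound (s := s) hR
  rw [hs, K06_siftedSum, ← hs] at g1
  have hm0 : kMod H ≠ 0 := kMod_ne_zero H h1 hinj
  have hlog : 0 < Real.log (T + 1) := by
    apply Real.log_pos
    have : (1 : ℝ) ≤ T := by exact_mod_cast hT
    linarith
  have g2 : (rho (kMod H) * Real.log (T + 1)) ^ (k + 1) ≤ selS s (T ^ (k + 1)) := by
    have e1 := sum_pow_Omega_le_selS s (k + 1) (kMod H) (T ^ (k + 1)) (by omega) rfl
      (factorial_dvd_kMod H) rfl
    have e2 := pow_sum_le (k + 1) (kMod H) T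
    refine le_trans ?_ (e2.trans e1)
    have h0 : 0 ≤ rho (kMod H) * Real.log (T + 1) := mul_nonneg (rho_pos _).le hlog.le
    exact pow_le_pow_left₀ h0 (rho_mul_log_le hm0 T) (k + 1)
  have g3 : 0 < (rho (kMod H) * Real.log (T + 1)) ^ (k + 1) := by
    have := rho_pos (kMod H)
    positivity
  refine g1.trans ?_
  have g4 : s.totalMass / selS s (T ^ (k + 1))
      ≤ X / (rho (kMod H) * Real.log (T + 1)) ^ (k + 1) := by
    change (X : ℝ) / selS s (T ^ (k + 1)) ≤ _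
    exact div_le_div_of_nonneg_left (Nat.cast_nonneg X) g3 g2
  refine add_le_add g4 ?_
  have g5 : ∀ d ∈ ({d ∈ s.prodPrimes.divisors | d ≤ T ^ (k + 1)} : Finset ℕ),
      d ∣ sProd (kMod H) (T ^ (k + 1)) ∧ d ≤ T ^ (k + 1) := by
    intro d hd
    simp only [Finset.mem_filter, Nat.mem_divisors] at hd
    exact ⟨hd.1.1, hd.2⟩
  have hpos : ∀ d : ℕ, d ∣ sProd (kMod H) (T ^ (k + 1)) → 0 < d := by
    intro d hd
    exact Nat.pos_of_dvd_of_pos hd (Nat.pos_of_ne_zero (squarefree_sProd _ _).ne_zero)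
  have hcard : ((#({d ∈ s.prodPrimes.divisors | d ≤ T ^ (k + 1)} : Finset ℕ) : ℕ) : ℝ)
      ≤ (T : ℝ) ^ (k + 1) := by
    have : #({d ∈ s.prodPrimes.divisors | d ≤ T ^ (k + 1)} : Finset ℕ)
        ≤ #(Finset.Icc 1 (T ^ (k + 1))) := by
      apply Finset.card_le_card
      intro d hd
      have h6 := g5 d hd
      rw [Finset.mem_Icc]
      exact ⟨hpos d h6.1, h6.2⟩
    rw [Nat.card_Icc, Nat.add_sub_cancel] at this
    exact_mod_cast this
  have hT0 : (0 : ℝ) ≤ T := Nat.cast_nonneg T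
  calc ∑ d1 ∈ s.prodPrimes.divisors with d1 ≤ T ^ (k + 1),
        ∑ d2 ∈ s.prodPrimes.divisors with d2 ≤ T ^ (k + 1), |s.rem (d1.lcm d2)|
      ≤ ∑ d1 ∈ s.prodPrimes.divisors with d1 ≤ T ^ (k + 1),
          ∑ d2 ∈ s.prodPrimes.divisors with d2 ≤ T ^ (k + 1), (T : ℝ) ^ (2 * (k + 1)) := by
        apply Finset.sum_le_sum
        intro d1 hd1
        apply Finset.sum_le_sum
        intro d2 hd2
        have h6 := g5 d1 hd1
        have h7 := g5 d2 hd2
        have h8 := K06_rem_le H X (T ^ (k + 1)) (Nat.lcm_dvd h6.1 h7.1)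
        refine h8.trans ?_
        have h9 : d1.lcm d2 ≤ T ^ (k + 1) * T ^ (k + 1) := by
          calc d1.lcm d2 ≤ d1 * d2 := Nat.lcm_le_mul (hpos d1 h6.1) (hpos d2 h7.1)
            _ ≤ T ^ (k + 1) * T ^ (k + 1) := Nat.mul_le_mul h6.2 h7.2
        have h10 : ((d1.lcm d2 : ℕ) : ℝ) ≤ ((T ^ (k + 1) * T ^ (k + 1) : ℕ) : ℝ) := by
          exact_mod_cast h9
        refine h10.trans (le_of_eq ?_)
        push_cast
        ring
    _ = ((#({d ∈ s.prodPrimes.divisors | d ≤ T ^ (k + 1)} : Finset ℕ) : ℕ) : ℝ) *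
        (((#({d ∈ s.prodPrimes.divisors | d ≤ T ^ (k + 1)} : Finset ℕ) : ℕ) : ℝ) *
          (T : ℝ) ^ (2 * (k + 1))) := by
        rw [Finset.sum_const, nsmul_eq_mul, Finset.sum_const, nsmul_eq_mul]
    _ ≤ (T : ℝ) ^ (k + 1) * ((T : ℝ) ^ (k + 1) * (T : ℝ) ^ (2 * (k + 1))) := by gcongr
    _ = (T : ℝ) ^ (4 * (k + 1)) := by
        rw [← pow_add, ← pow_add]
        congr 1
        ring

/-- Prime tuples: `#{n ≤ X : n, n + H_1, …, n + H_k prime}
≤ X / (ρ(m) log(T + 1))^{k+1} + T^{4 (k+1)} + T^{k+1}`.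

PROOF. Copy `card_prime_pair_le` in `PairSieve.lean`: if `n > T^{k+1}` and all `n + H_i` are prime
(they are `> T^{k+1}` too), then no prime `≤ T^{k+1}` divides `kForm H n`. -/
theorem card_prime_tuple_le {k : ℕ} (H : Fin k → ℕ) (h1 : ∀ i, 1 ≤ H i)
    (hinj : Function.Injective H) (X T : ℕ) (hT : 1 ≤ T) :
    ((#{n ∈ Finset.Ioc 0 X | n.Prime ∧ ∀ i, (n + H i).Prime} : ℕ) : ℝ)
      ≤ X / (rho (kMod H) * Real.log (T + 1)) ^ (k + 1) + (T : ℝ) ^ (4 * (k + 1))
        + (T : ℝ) ^ (k + 1) := by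
  have g1 := card_sifted_kForm_le H h1 hinj X T hT
  have g2 : ({n ∈ Finset.Ioc 0 X | n.Prime ∧ ∀ i, (n + H i).Prime} : Finset ℕ) ⊆
      ({n ∈ Finset.Ioc 0 X | Nat.Coprime (sProd (kMod H) (T ^ (k + 1))) (kForm H n)} : Finset ℕ)
        ∪ Finset.Ioc 0 (T ^ (k + 1)) := by
    intro n hn
    simp only [Finset.mem_filter, Finset.mem_Ioc, Finset.mem_union] at hn ⊢
    by_cases hnT : n ≤ T ^ (k + 1)
    · right; exact ⟨hn.1.1, hnT⟩
    · left
      refine ⟨hn.1, ?_⟩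
      push Not at hnT
      have aux : ∀ q : ℕ, q.Prime → n ≤ q → Nat.Coprime (sProd (kMod H) (T ^ (k + 1))) q := by
        intro q hq hnq
        rw [Nat.coprime_comm, Nat.Prime.coprime_iff_not_dvd hq]
        intro hdvd
        have := ((prime_dvd_sProd_iff hq).mp hdvd).1
        omega
      unfold kForm
      apply Nat.Coprime.mul_right
      · exact aux n hn.2.1 le_rfl
      · apply Nat.Coprime.prod_right
        intro i _
        exact aux (n + H i) (hn.2.2 i) (Nat.le_add_right _ _)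
  have g3 := Finset.card_le_card g2
  have g4 := g3.trans (Finset.card_union_le _ _)
  rw [Nat.card_Ioc] at g4
  have g5 : ((#{n ∈ Finset.Ioc 0 X | n.Prime ∧ ∀ i, (n + H i).Prime} : ℕ) : ℝ)
      ≤ ((#{n ∈ Finset.Ioc 0 X |
          Nat.Coprime (sProd (kMod H) (T ^ (k + 1))) (kForm H n)} : ℕ) : ℝ)
        + (T : ℝ) ^ (k + 1) := by
    have h6 : ((#{n ∈ Finset.Ioc 0 X | n.Prime ∧ ∀ i, (n + H i).Prime} : ℕ) : ℝ) ≤
      ((#{n ∈ Finset.Ioc 0 X | Nat.Coprime (sProd (kMod H) (T ^ (k + 1))) (kForm H n)}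
        + (T ^ (k + 1) - 0) : ℕ) : ℝ) := by exact_mod_cast g4
    refine h6.trans (le_of_eq ?_)
    push_cast
    simp
  linarith

end Pool.Agent.Lib.MP_bae66e_nt.LL
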